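import Pool.Agent.Q46.PV.Vec
import Pool.Agent.H474R2.PG.Final

set_option autoImplicit false

/-! # Vectors of integers all of whose coordinates are far from the arguments of the prime values of a polynomial -/

namespace Pool.Agent.Q46.PV

open Finset Filter Polynomial
open Pool.Agent.H469R2.NK (e norm_e e_add)
open Pool.Agent.H474R2.PG (PR Sg rho WW WW_pos WW_le PR_prime PR_le prod_le_exp rho_le mertens_lower no_collision
  Sg_close growth class_choice rho_shift rho_le_self)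

/-- every value of `f` at an integer within `K` of `x` has a prime factor smaller than the value -/
def IsoP (f : ℤ[X]) (K : ℝ) (x : ℤ) : Prop :=
  ∀ k : ℤ, |(k : ℝ)| ≤ K → ∃ p : ℕ, p.Prime ∧ (p : ℤ) ∣ f.eval (x + k) ∧ (p : ℤ) < f.eval (x + k)

open Classical in
/-- number of residues `a` modulo `p` such that `f (a - H + l)` is not divisible by `p` for `l` in `R` -/
noncomputable def kap (f : ℤ[X]) (H : ℕ) (R : Finset ℕ) (p : ℕ) : ℕ :=
  ((range p).filter (fun a : ℕ => ∀ l ∈ R, ¬ (p : ℤ) ∣ f.eval ((a : ℤ) - H + l))).card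

lemma kap_le (f : ℤ[X]) (H : ℕ) (R : Finset ℕ) (p : ℕ) : kap f H R p ≤ p := by
  unfold kap
  exact (card_filter_le _ _).trans (by rw [card_range])

lemma kap_ge (f : ℤ[X]) (H : ℕ) (R : Finset ℕ) (p : ℕ) (hp : p.Prime) :
    (p : ℝ) - R.card * rho f p ≤ kap f H R p := by
  classical
  have h1 : (range p).card ≤ kap f H R p + ∑ l ∈ R,
      ((range p).filter (fun a : ℕ => (p : ℤ) ∣ f.eval ((a : ℤ) + ((l : ℤ) - H)))).card := by
    have h2 : range p ⊆ ((range p).filter (fun a : ℕ => ∀ l ∈ R, ¬ (p : ℤ) ∣ f.eval ((a : ℤ) - H + l))) ∪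
        R.biUnion (fun l => (range p).filter (fun a : ℕ => (p : ℤ) ∣ f.eval ((a : ℤ) + ((l : ℤ) - H)))) := by
      intro a ha
      rw [mem_union, mem_filter, mem_biUnion]
      by_cases h : ∀ l ∈ R, ¬ (p : ℤ) ∣ f.eval ((a : ℤ) - H + l)
      · exact Or.inl ⟨ha, h⟩
      · right
        push Not at h
        obtain ⟨l, hl, hl2⟩ := h
        refine ⟨l, hl, mem_filter.2 ⟨ha, ?_⟩⟩
        have e1 : (a : ℤ) + ((l : ℤ) - H) = (a : ℤ) - H + l := by ring
        rw [e1]
        exact hl2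
    refine (card_le_card h2).trans ((card_union_le _ _).trans ?_)
    refine Nat.add_le_add (le_of_eq ?_) card_biUnion_le
    unfold kap
    congr!
  have h3 : ∑ l ∈ R, ((range p).filter (fun a : ℕ => (p : ℤ) ∣ f.eval ((a : ℤ) + ((l : ℤ) - H)))).card =
      R.card * rho f p := by
    rw [sum_congr rfl (fun l _ => ?_), sum_const, smul_eq_mul]
    have := rho_shift f p hp ((l : ℤ) - H)
    rw [← this]
  rw [h3, card_range] at h1
  have h4 : (p : ℝ) ≤ (kap f H R p + R.card * rho f p : ℕ) := by exact_mod_cast h1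
  push_cast at h4
  linarith

/-- the density -/
noncomputable def gg (f : ℤ[X]) (r H : ℕ) (R : Finset ℕ) (p : ℕ) : ℝ :=
  (rho f p : ℝ) / p * ((kap f H R p : ℝ) / p) ^ (r - 1)

lemma gg_le (f : ℤ[X]) (r H : ℕ) (R : Finset ℕ) (p : ℕ) (hp : p.Prime) :
    gg f r H R p ≤ (rho f p : ℝ) / p := by
  unfold gg
  have hp0 : (0 : ℝ) < p := by exact_mod_cast hp.pos
  refine mul_le_of_le_one_right (by positivity) (pow_le_one₀ (by positivity) ?_)
  rw [div_le_one hp0]
  exact_mod_cast kap_le f H R p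

lemma le_gg (f : ℤ[X]) (r H : ℕ) (R : Finset ℕ) (p : ℕ) (hp : p.Prime) (δ : ℝ)
    (h : (r : ℝ) * (R.card * rho f p) ≤ δ * p) :
    (1 - δ) * ((rho f p : ℝ) / p) ≤ gg f r H R p := by
  unfold gg
  have hp0 : (0 : ℝ) < p := by exact_mod_cast hp.pos
  have h1 := kap_ge f H R p hp
  have h2 : (kap f H R p : ℝ) / p ≤ 1 := by
    rw [div_le_one hp0]
    exact_mod_cast kap_le f H R p
  have h0 : (0 : ℝ) ≤ (kap f H R p : ℝ) / p := by positivity
  have h3 : 1 - (kap f H R p : ℝ) / p ≤ R.card * rho f p / p := by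
    rw [sub_le_comm, ← sub_nonneg]
    have : (kap f H R p : ℝ) / p - (1 - R.card * rho f p / p) =
        (kap f H R p - (p - R.card * rho f p)) / p := by
      field_simp
    rw [this]
    exact div_nonneg (by linarith) hp0.le
  have h4 := one_add_mul_le_pow (show (-2 : ℝ) ≤ (kap f H R p : ℝ) / p - 1 by linarith) (r - 1)
  have h5 : (1 : ℝ) + ((kap f H R p : ℝ) / p - 1) = (kap f H R p : ℝ) / p := by ring
  rw [h5] at h4
  have h6 : (r : ℝ) * (R.card * rho f p / p) ≤ δ := by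
    rw [mul_div_assoc'] 
    rw [div_le_iff₀ hp0]
    exact h
  have h7 : ((r - 1 : ℕ) : ℝ) * (1 - (kap f H R p : ℝ) / p) ≤ δ := by
    refine le_trans ?_ h6
    refine mul_le_mul (by exact_mod_cast Nat.sub_le r 1) h3 (by linarith) (by positivity)
  rw [mul_comm (1 - δ)]
  refine mul_le_mul_of_nonneg_left ?_ (by positivity)
  refine le_trans ?_ h4
  nlinarith

open Classical in
/-- the conditions on the coordinate `j` -/
def Cnd (f : ℤ[X]) {r : ℕ} (H : ℕ) (R : Finset ℕ) (S₁ : Finset ℕ) (r₀ : ℤ) (σ : ℕ → Fin r × ↥R) (j : Fin r)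
    (p : ℕ) (x : ℤ) : Prop :=
  if p ∈ S₁ then (p : ℤ) ∣ x - (r₀ + H)
  else if (σ p).1 = j then (p : ℤ) ∣ f.eval (x - H + (((σ p).2 : ℕ) : ℤ))
  else ∀ l ∈ R, ¬ (p : ℤ) ∣ f.eval (x - H + (l : ℤ))

lemma dvd_shift (f : ℤ[X]) (p : ℤ) (x y k : ℤ) (h : p ∣ x - y) : p ∣ f.eval (x + k) ↔ p ∣ f.eval (y + k) := by
  have h2 := Polynomial.sub_dvd_eval_sub (x + k) (y + k) f
  have h3 : p ∣ (x + k) - (y + k) := by rwa [add_sub_add_right_eq_sub]
  exact dvd_iff_dvd_of_dvd_sub (h3.trans h2)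

lemma Cnd_per (f : ℤ[X]) {r : ℕ} (H : ℕ) (R : Finset ℕ) (S₁ : Finset ℕ) (r₀ : ℤ) (σ : ℕ → Fin r × ↥R) (j : Fin r)
    (p : ℕ) (x y : ℤ) (h : (p : ℤ) ∣ x - y) : Cnd f H R S₁ r₀ σ j p x ↔ Cnd f H R S₁ r₀ σ j p y := by
  unfold Cnd
  have h0 : (p : ℤ) ∣ (x - H) - (y - H) := by rwa [sub_sub_sub_cancel_right]
  split_ifs
  · refine dvd_iff_dvd_of_dvd_sub ?_
    rwa [sub_sub_sub_cancel_right]
  · exact dvd_shift f p _ _ _ h0
  · exact forall₂_congr fun l _ => not_congr (dvd_shift f p _ _ _ h0)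

open Classical in
lemma Cnd_prod (f : ℤ[X]) {r : ℕ} (hr : 1 ≤ r) (H : ℕ) (R : Finset ℕ) (S₁ T : Finset ℕ) (hST : Disjoint S₁ T)
    (hS₁ : ∀ p ∈ S₁, p.Prime) (hT : ∀ p ∈ T, p.Prime) (r₀ : ℤ) (σ : ℕ → Fin r × ↥R) :
    ∏ p ∈ S₁ ∪ T, ∏ j : Fin r, (((range p).filter (fun a : ℕ => Cnd f H R S₁ r₀ σ j p (a : ℤ))).card : ℝ) / p =
      (1 / ((∏ p ∈ S₁, p : ℕ) : ℝ) ^ r) * ∏ p ∈ T, gg f r H R p := by
  rw [prod_union hST]
  congr 1
  · push_cast
    rw [one_div, ← prod_pow, ← prod_inv_distrib]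
    refine prod_congr rfl fun p hp => ?_
    have hpp := hS₁ p hp
    have hp0 : (0 : ℝ) < p := by exact_mod_cast hpp.pos
    have h1 : ∀ j : Fin r, ((range p).filter (fun a : ℕ => Cnd f H R S₁ r₀ σ j p (a : ℤ))).card = 1 := by
      intro j
      rw [card_eq_one]
      have hpz : (0 : ℤ) < p := by exact_mod_cast hpp.pos
      refine ⟨((r₀ + H) % (p : ℤ)).toNat, ?_⟩
      have e1 : ((((r₀ + H) % (p : ℤ)).toNat : ℕ) : ℤ) = (r₀ + H) % (p : ℤ) :=
        Int.toNat_of_nonneg (Int.emod_nonneg _ hpz.ne')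
      ext a
      rw [mem_filter, mem_range, mem_singleton]
      unfold Cnd
      rw [if_pos hp]
      constructor
      · rintro ⟨h2, h3⟩
        have h4 : (a : ℤ) % p = (r₀ + H) % p :=
          (Int.emod_eq_emod_iff_emod_sub_eq_zero).2 (Int.emod_eq_zero_of_dvd h3)
        rw [Int.emod_eq_of_lt (by positivity) (by exact_mod_cast h2)] at h4
        rw [← e1] at h4
        exact_mod_cast h4
      · rintro rfl
        refine ⟨?_, ?_⟩
        · have h2 := Int.emod_lt_of_pos (r₀ + H) hpz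
          rw [← e1] at h2
          exact_mod_cast h2
        · rw [e1]
          have := Int.dvd_self_sub_emod (x := r₀ + (H : ℤ)) (m := (p : ℤ))
          rw [← dvd_neg, neg_sub]
          exact this
    rw [prod_congr rfl (fun j _ => by rw [h1 j])]
    rw [prod_const, card_univ, Fintype.card_fin]
    simp
  · refine prod_congr rfl fun p hp => ?_
    have hpp := hT p hp
    have hpS : p ∉ S₁ := fun h => (disjoint_left.1 hST) h hp
    have h1 : ∀ j : Fin r, (((range p).filter (fun a : ℕ => Cnd f H R S₁ r₀ σ j p (a : ℤ))).card : ℝ) / p =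
        if (σ p).1 = j then (rho f p : ℝ) / p else (kap f H R p : ℝ) / p := by
      intro j
      unfold Cnd
      split_ifs with h
      · have e1 := rho_shift f p hpp ((((σ p).2 : ℕ) : ℤ) - H)
        rw [← e1]
        congr 3
        refine filter_congr fun a _ => ?_
        have e2 : (a : ℤ) - H + (((σ p).2 : ℕ) : ℤ) = (a : ℤ) + ((((σ p).2 : ℕ) : ℤ) - H) := by ring
        rw [e2]
      · unfold kap
        congr 3
    rw [prod_congr rfl (fun j _ => h1 j)]
    rw [← mul_prod_erase univ _ (mem_univ (σ p).1), if_pos rfl]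
    unfold gg
    congr 1
    rw [prod_congr rfl (fun j hj => by rw [if_neg (fun h => (mem_erase.1 hj).1 h.symm)])]
    rw [prod_const, card_erase_of_mem (mem_univ _), card_univ, Fintype.card_fin]

end Pool.Agent.Q46.PV
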