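import Pool.Agent.Q46.PV.Cover
import Pool.Agent.H474R2.PG.Rough

set_option autoImplicit false

/-! # The covering theorem for families, densities close to `r p / p` -/

namespace Pool.Agent.Q46.PV

open Finset
open Pool.Agent.H474R2.PG (PR Sg PS)
open Pool.Agent.H474R2.PG.RoughAux (mem_PR)

open Classical in
/-- transport of a finite family to the integers -/
lemma transport {ι : Type} (s : Finset ι) (hs : s.Nonempty) : ∃ (𝒜 : Finset ℤ) (ψ : ℤ → ι),
    (∀ a ∈ 𝒜, ψ a ∈ s) ∧ ∀ P : ι → Prop, (𝒜.filter (fun a => P (ψ a))).card = (s.filter P).card := by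
  obtain ⟨i₀, hi₀⟩ := hs
  set n := s.card with hn
  set φ := s.equivFin with hφ
  set ψ : ℤ → ι := fun a => if h : a.toNat < s.card then ((φ.symm ⟨a.toNat, h⟩ : s) : ι) else i₀ with hψ
  refine ⟨(range s.card).map ⟨fun k : ℕ => (k : ℤ), Nat.cast_injective⟩, ψ, ?_, ?_⟩
  · intro a _
    simp only [hψ]
    split_ifs with h
    · exact (φ.symm ⟨a.toNat, h⟩).2
    · exact hi₀
  · intro P
    rw [filter_map, card_map]
    refine card_bij (fun k _ => ψ (k : ℤ)) ?_ ?_ ?_
    · intro k hk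
      rw [mem_filter] at hk ⊢
      refine ⟨?_, hk.2⟩
      simp only [hψ]
      split_ifs with h
      · exact (φ.symm _).2
      · exact hi₀
    · intro a ha b hb h
      rw [mem_filter, mem_range] at ha hb
      have ha' : ((a : ℤ)).toNat < s.card := by simpa using ha.1
      have hb' : ((b : ℤ)).toNat < s.card := by simpa using hb.1
      simp only [hψ, dif_pos ha', dif_pos hb'] at h
      have h2 := φ.symm.injective (Subtype.ext h)
      have h3 := congrArg Fin.val h2
      simpa using h3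
    · intro i hi
      rw [mem_filter] at hi
      refine ⟨(φ ⟨i, hi.1⟩ : Fin s.card), ?_, ?_⟩
      · rw [mem_filter, mem_range]
        refine ⟨(φ ⟨i, hi.1⟩).2, ?_⟩
        show P (ψ _)
        have : ψ (((φ ⟨i, hi.1⟩ : Fin s.card) : ℕ) : ℤ) = i := by
          have h : ((((φ ⟨i, hi.1⟩ : Fin s.card) : ℕ) : ℤ)).toNat < s.card := by simp
          simp only [hψ, dif_pos h]
          simp
        simpa [this] using hi.2
      · have h : ((((φ ⟨i, hi.1⟩ : Fin s.card) : ℕ) : ℤ)).toNat < s.card := by simp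
        simp only [hψ, dif_pos h]
        simp

open Classical in
theorem covering_fam (r : ℕ → ℕ) (d B : ℕ) (hd : 1 ≤ d)
    (hr : ∀ p : ℕ, p.Prime → B < p → r p ≤ d) (C : ℝ)
    (hM : ∀ w : ℝ, 3 ≤ w → Real.log (Real.log w) - C ≤ Sg r w)
    (A : ℕ) (hA : 2 ≤ A) :
    ∃ c : ℝ, 0 < c ∧ ∃ X₀ : ℝ, ∀ X : ℝ, X₀ ≤ X →
    ∀ (g' : ℕ → ℝ),
    (∀ p : ℕ, p.Prime → (Real.log X) ^ A < p → (p : ℝ) ≤ X ^ (1 / 10 : ℝ) →
      g' p ≤ (r p : ℝ) / (p : ℝ) ∧ (1 - 1 / (Real.log X) ^ 2) * ((r p : ℝ) / (p : ℝ)) ≤ g' p) →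
    ∀ (κ : Type) [Fintype κ] [DecidableEq κ] [Nonempty κ],
    (Fintype.card κ : ℝ) ≤ c * Real.log X * Real.log (Real.log X) *
      Real.exp (-(Sg r ((Real.log X) ^ A))) →
    ∀ (ι : Type) (hit : ℕ → ι → κ → Prop),
    (∀ p : ℕ, p.Prime → (Real.log X) ^ A < p → (p : ℝ) ≤ X ^ (1 / 10 : ℝ) →
      ∀ a k l, hit p a k → hit p a l → k = l) →
    ∀ (s : Finset ι) (N : ℝ), s.Nonempty → 0 < N →
    (∀ (T : Finset ℕ) (σ : ℕ → κ), (∏ p ∈ T, (p : ℝ)) ≤ X ^ (1 / 4 : ℝ) →
      (∀ p ∈ T, p.Prime ∧ (Real.log X) ^ A < p ∧ (p : ℝ) ≤ X ^ (1 / 10 : ℝ) ∧ r p ≠ 0) →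
      |((s.filter (fun a => ∀ p ∈ T, hit p a (σ p))).card : ℝ) - N * ∏ p ∈ T, g' p| ≤
        N * X ^ (-(1 / 4) : ℝ)) →
    ∃ a ∈ s, ∀ k : κ, ∃ p : ℕ, p.Prime ∧ (Real.log X) ^ A < p ∧ (p : ℝ) ≤ X ^ (1 / 10 : ℝ) ∧
      hit p a k := by
  obtain ⟨c₂, hc₂, Y₀, hY₀, hRL⟩ := Pool.Agent.H474R2.PG.rough_lower r d B hr C hM
  obtain ⟨c, hc, X₀, hcov⟩ := covering_gen r d B hd hr C hM (c₂ / 2) (by positivity) A hA
  refine ⟨c, hc, max X₀ (Real.exp (max Y₀ 10)), ?_⟩
  intro X hX g' hg κ _ _ _ hκ ι hit hres s N hs hN hcount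
  have hX1 : X₀ ≤ X := (le_max_left _ _).trans hX
  have hX2 : Real.exp (max Y₀ 10) ≤ X := (le_max_right _ _).trans hX
  have hX0 : 0 < X := lt_of_lt_of_le (Real.exp_pos _) hX2
  set L : ℝ := Real.log X with hL
  have hL1 : max Y₀ 10 ≤ L := by
    rw [hL, ← Real.log_exp (max Y₀ 10)]
    exact Real.log_le_log (Real.exp_pos _) hX2
  have hLY : Y₀ ≤ L := (le_max_left _ _).trans hL1
  have hL10 : 10 ≤ L := (le_max_right _ _).trans hL1
  have hLA : L ≤ L ^ A := le_self_pow₀ (by linarith) (by omega)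
  have hL2 : 0 ≤ 1 - 1 / L ^ 2 := by
    have : 1 / L ^ 2 ≤ 1 := by
      rw [div_le_one (by positivity)]
      nlinarith
    linarith
  obtain ⟨𝒜, ψ, h1, h2⟩ := transport s hs
  obtain ⟨a, ha, hac⟩ := hcov X hX1 g' (by
      intro p hp hpA hpX hr0
      obtain ⟨h3, h4⟩ := hg p hp hpA hpX
      refine ⟨lt_of_lt_of_le ?_ h4, h3⟩
      have h5 : (0 : ℝ) < r p := by exact_mod_cast Nat.pos_of_ne_zero hr0
      have h6 : (0 : ℝ) < p := by exact_mod_cast hp.pos
      have h7 : 0 < 1 - 1 / L ^ 2 := by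
        have : 1 / L ^ 2 < 1 := by
          rw [div_lt_one (by positivity)]
          nlinarith
        linarith
      positivity) (by
      intro z x hx hxz hz
      have h3 := hRL (L ^ A) z x (hLY.trans hLA) hx hxz
      have h4 : (1 / 2 : ℝ) * ∑ t ∈ ((PS r (L ^ A) z).powerset.filter
            (fun t : Finset ℕ => t.Nonempty ∧ ∏ p ∈ t, (p : ℝ) ≤ x)), ∏ p ∈ t, (r p : ℝ) / (p : ℝ) ≤
          ∑ t ∈ ((PS r (L ^ A) z).powerset.filter
            (fun t : Finset ℕ => t.Nonempty ∧ ∏ p ∈ t, (p : ℝ) ≤ x)), ∏ p ∈ t, g' p := by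
        rw [mul_sum]
        refine sum_le_sum fun t ht => ?_
        rw [mem_filter, mem_powerset] at ht
        obtain ⟨ht1, -, ht2⟩ := ht
        have hp : ∀ p ∈ t, p.Prime ∧ L ^ A < (p : ℝ) ∧ (p : ℝ) ≤ X ^ (1 / 10 : ℝ) := by
          intro p hpt
          have h5 := ht1 hpt
          unfold PS at h5
          rw [mem_filter, mem_PR (by
            have : (0 : ℝ) ≤ L ^ A := by positivity
            linarith)] at h5
          exact ⟨h5.1.1, h5.2.1, h5.1.2.trans hz⟩
        -- number of primes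
        have hcard : (t.card : ℝ) ≤ L := by
          have h6 : Real.exp (t.card : ℝ) ≤ ∏ p ∈ t, (p : ℝ) := by
            have : Real.exp (t.card : ℝ) = ∏ p ∈ t, Real.exp 1 := by
              rw [prod_const, ← Real.exp_nat_mul, mul_one]
            rw [this]
            refine prod_le_prod (fun _ _ => (Real.exp_pos _).le) fun p hpt => ?_
            have := Real.exp_one_lt_d9
            have := (hp p hpt).2.1
            linarith
          have h7 : Real.exp (t.card : ℝ) ≤ Real.exp L := by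
            refine (h6.trans ht2).trans ((hxz.trans hz).trans ?_)
            rw [show X = Real.exp L from (Real.exp_log hX0).symm, ← Real.exp_mul]
            exact Real.exp_le_exp.2 (by linarith)
          exact Real.exp_le_exp.1 h7
        have h8 : (1 - 1 / L ^ 2) ^ t.card * ∏ p ∈ t, (r p : ℝ) / (p : ℝ) ≤ ∏ p ∈ t, g' p := by
          rw [← prod_const, ← prod_mul_distrib]
          refine prod_le_prod (fun p _ => mul_nonneg hL2 (by positivity)) fun p hpt => ?_
          obtain ⟨e1, e2, e3⟩ := hp p hpt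
          exact (hg p e1 e2 e3).2
        have h9 : (1 / 2 : ℝ) ≤ (1 - 1 / L ^ 2) ^ t.card := by
          have e1 := one_add_mul_le_pow (show (-2 : ℝ) ≤ -(1 / L ^ 2) by
            have : 1 / L ^ 2 ≤ 1 := by
              rw [div_le_one (by positivity)]
              nlinarith
            linarith) t.card
          have e2 : (t.card : ℝ) * (1 / L ^ 2) ≤ 1 / 2 := by
            calc (t.card : ℝ) * (1 / L ^ 2) ≤ L * (1 / L ^ 2) :=
                  mul_le_mul_of_nonneg_right hcard (by positivity)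
              _ = 1 / L := by field_simp
              _ ≤ 1 / 2 := one_div_le_one_div_of_le (by norm_num) (by linarith)
          have e3 : (1 : ℝ) + -(1 / L ^ 2) = 1 - 1 / L ^ 2 := by ring
          rw [e3] at e1
          linarith
        refine le_trans ?_ h8
        exact mul_le_mul_of_nonneg_right h9 (prod_nonneg fun p _ => by positivity)
      have h5 : c₂ / 2 * Real.log x * Real.exp (-(Sg r (L ^ A))) - 1 ≤
          1 / 2 * (c₂ * Real.log x * Real.exp (-(Sg r (L ^ A))) - 1) := by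
        have : c₂ / 2 * Real.log x * Real.exp (-(Sg r (L ^ A))) =
          1 / 2 * (c₂ * Real.log x * Real.exp (-(Sg r (L ^ A)))) := by ring
        rw [this]
        linarith
      refine (h5.trans ?_).trans h4
      exact mul_le_mul_of_nonneg_left h3 (by norm_num)) κ hκ (fun p a k => hit p (ψ a) k)
    (fun p hp hpA hpX a k l => hres p hp hpA hpX (ψ a) k l) 𝒜 N (N * X ^ (-(1 / 4) : ℝ)) hN (by positivity)
    le_rfl (by
      intro T σ hT hT2
      have h3 := hcount T σ hT hT2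
      have h4 := h2 (fun a => ∀ p ∈ T, hit p a (σ p))
      refine le_trans (le_of_eq ?_) h3
      congr 3
      calc _ = _ := by congr!
        _ = _ := h4
        _ = _ := by congr!)
  exact ⟨ψ a, h1 a ha, hac⟩

end Pool.Agent.Q46.PV
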