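import Pool.Agent.Q46.PV.Main
import Pool.Agent.Q46.GQ.Graph

set_option autoImplicit false

/-! # The criterion for the arguments of the prime values of a polynomial -/

namespace Pool.Agent.Q46.PV

open Finset Filter Polynomial

/-- every value of `f` at an integer within `κ log M log log M` of `x` has a prime factor smaller than the value -/
def QP (f : ℤ[X]) : ℝ → ℝ → ℤ → Prop := fun κ M x => IsoP f (κ * (Real.log M * Real.log (Real.log M))) x

lemma CH_QP (f : ℤ[X]) (hf : Irreducible f) (hd : 0 < f.natDegree) (hl : 0 < f.leadingCoeff) :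
    ∀ r, 1 ≤ r → Pool.Agent.Q46.GQ.CH (QP f) r := by
  intro r hr η h0 h1
  obtain ⟨κ, hκ, h⟩ := crit_many f hf hd hl r hr η h0 h1
  refine ⟨κ, hκ, ?_⟩
  filter_upwards [h] with M hM
  intro ι s v hv hE
  convert hM ι s v hv hE using 2
  unfold QP
  congr!

/-- a value with a prime factor smaller than the value is not a prime -/
lemma QP_not_prime {f : ℤ[X]} {κ M : ℝ} {x : ℤ} (h : QP f κ M x) (m : ℤ) (hm : Prime (f.eval m))
    (hm0 : 0 ≤ f.eval m) : κ * (Real.log M * Real.log (Real.log M)) < |(m : ℝ) - x| := by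
  by_contra hcon
  push Not at hcon
  obtain ⟨p, hp, hdv, hlt⟩ := h (m - x) (by push_cast; exact hcon)
  rw [show x + (m - x) = m by ring] at hdv hlt
  have h1 := (Int.prime_iff_natAbs_prime.1 hm)
  have h2 : p ∣ (f.eval m).natAbs := Int.natCast_dvd.1 hdv
  rcases (Nat.dvd_prime h1).1 h2 with h3 | h3
  · exact hp.one_lt.ne' h3
  · rw [h3] at hlt
    omega

end Pool.Agent.Q46.PV
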