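import Pool.Agent.Q46.PV.Crit

set_option autoImplicit false

/-! # Vectors of integers far from the arguments of prime values of a polynomial: the criterion -/

namespace Pool.Agent.Q46.PV

open Finset Filter Polynomial
open Pool.Agent.H469R2.NK (e norm_e e_add)
open Pool.Agent.H474R2.PG (PR Sg rho WW WW_pos WW_le PR_prime PR_le prod_le_exp rho_le mertens_lower no_collision
  Sg_close growth class_choice rho_shift rho_le_self)

/-- eventual inequalities -/
lemma ev_L (θ c' : ℝ) (hθ : 0 < θ) (hc' : 0 < c') (D r : ℕ) (K₁ K₂ : ℝ) : ∀ᶠ L : ℝ in atTop,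
    K₁ ≤ L ∧ K₂ ≤ L ∧ 1000 ≤ L ∧ (r : ℝ) * D ≤ L ∧ 1 ≤ c' * Real.log L ∧ 3 * (c' * L * Real.log L) ≤ L ^ 2 ∧
    10 ≤ Real.log L := by
  have e1 : ∀ᶠ t : ℝ in atTop, 3 * c' * Real.log t ≤ t := by
    have h2 := Real.isLittleO_log_id_atTop.def (show (0:ℝ) < 1 / (3 * c') by positivity)
    filter_upwards [h2, eventually_ge_atTop (1:ℝ)] with t ht ht1
    rw [Real.norm_eq_abs, abs_of_nonneg (Real.log_nonneg ht1), Real.norm_eq_abs] at ht
    simp only [id] at ht
    rw [abs_of_nonneg (by linarith), div_mul_eq_mul_div, one_mul, le_div_iff₀ (by positivity)] at ht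
    linarith
  filter_upwards [eventually_ge_atTop K₁, eventually_ge_atTop K₂, eventually_ge_atTop (1000 : ℝ),
    eventually_ge_atTop ((r : ℝ) * D), Real.tendsto_log_atTop.eventually_ge_atTop (1 / c'), e1,
    Real.tendsto_log_atTop.eventually_ge_atTop (10 : ℝ)] with L h1 h2 h3 h4 h5 h6 h7
  refine ⟨h1, h2, h3, h4, ?_, ?_, h7⟩
  · rw [div_le_iff₀ hc'] at h5
    linarith
  · have : 3 * (c' * L * Real.log L) = L * (3 * c' * Real.log L) := by ring
    rw [this, sq]
    exact mul_le_mul_of_nonneg_left h6 (by linarith)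

open Classical in
theorem exists_iso (f : ℤ[X]) (hf : Irreducible f) (hd : 0 < f.natDegree) (hl : 0 < f.leadingCoeff)
    (r : ℕ) (hr : 1 ≤ r) (η : ℝ) (h0 : 0 < η) (h1 : η ≤ 1) :
    ∃ κ : ℝ, 0 < κ ∧ ∀ᶠ M : ℝ in atTop,
    ∀ (ι : Type) (s : Finset ι) (v : ι → Fin r → ℤ), s.Nonempty → (∀ i ∈ s, ∀ j, M ^ η ≤ v i j) →
    (∀ q : ℕ, 1 ≤ q → (q : ℝ) ≤ M ^ η → ∀ h : Fin r → ℕ, (∀ j, h j < q) → h ≠ 0 →
      ‖∑ i ∈ s, e (∑ j, (h j : ℝ) * (v i j / q))‖ ≤ s.card * M ^ (-η)) →
    ∃ i ∈ s, ∀ j, IsoP f (κ * (Real.log M * Real.log (Real.log M))) (v i j) := by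
  obtain ⟨B, hB⟩ := rho_le f hf.ne_zero
  obtain ⟨C, hM⟩ := mertens_lower f hf hd
  obtain ⟨A₁, hA₁, T₀, hNC⟩ := no_collision f hf hd
  set A : ℕ := max A₁ 5 with hA
  have hA5 : 5 ≤ A := le_max_right _ _
  have hAA : A₁ ≤ A := le_max_left _ _
  obtain ⟨c, hc, X₀, hcov⟩ := covering_fam (rho f) f.natDegree B hd hB C hM A (by omega)
  obtain ⟨C₁, L₀, hcl⟩ := Sg_close (rho f) f.natDegree B hB A (by omega) (1 / 100) (by norm_num)
    (by norm_num)
  obtain ⟨x₀, hx₀⟩ := growth f hd hl
  have hr1 : (1 : ℝ) ≤ r := by exact_mod_cast hr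
  have hr0 : (0 : ℝ) < r := by linarith
  set c' : ℝ := c * Real.exp (-C₁) / (3 * r) with hc'
  have hc'0 : 0 < c' := by positivity
  set θ : ℝ := η / (2 * r) with hθ
  have hθ0 : 0 < θ := by positivity
  have hθη : 2 * r * θ = η := by rw [hθ]; field_simp
  have hθ2 : θ ≤ η / 2 := by nlinarith
  refine ⟨c' * θ / 2, by positivity, ?_⟩
  have t0 : Tendsto (fun M : ℝ => θ * Real.log M) atTop atTop :=
    Real.tendsto_log_atTop.const_mul_atTop hθ0
  have key : ∀ᶠ M : ℝ in atTop, (1 < M ∧ X₀ ≤ M ^ θ ∧ -Real.log θ ≤ 1 / 2 * Real.log (Real.log M) ∧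
      0 ≤ Real.log (Real.log M)) ∧
      ((max T₀ B ≤ θ * Real.log M ∧ max L₀ 1 ≤ θ * Real.log M ∧ 1000 ≤ θ * Real.log M ∧
        (r : ℝ) * f.natDegree ≤ θ * Real.log M ∧ 1 ≤ c' * Real.log (θ * Real.log M) ∧
        3 * (c' * (θ * Real.log M) * Real.log (θ * Real.log M)) ≤ (θ * Real.log M) ^ 2 ∧
        10 ≤ Real.log (θ * Real.log M)) ∧
      |(x₀ : ℝ)| + (θ * Real.log M) ^ 2 + 2 * M ^ (θ / 10) + 2 ≤ M ^ η) := by
    have e1 : Tendsto (fun M : ℝ => Real.log (Real.log M)) atTop atTop :=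
      Real.tendsto_log_atTop.comp Real.tendsto_log_atTop
    have e2 : ∀ᶠ M : ℝ in atTop, |(x₀ : ℝ)| + (θ * Real.log M) ^ 2 + 2 * M ^ (θ / 10) + 2 ≤ M ^ η := by
      have a1 : ∀ᶠ M : ℝ in atTop, |(x₀ : ℝ)| + 2 ≤ M ^ η / 4 := by
        have := (tendsto_rpow_atTop h0).eventually_ge_atTop (4 * (|(x₀ : ℝ)| + 2))
        filter_upwards [this] with M hM
        linarith
      have a2 : ∀ᶠ M : ℝ in atTop, (θ * Real.log M) ^ 2 ≤ M ^ η / 4 := by
        have b1 : (fun Y : ℝ => (Real.log Y) ^ (2:ℝ)) =o[atTop] (fun Y : ℝ => Y ^ η) :=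
          isLittleO_log_rpow_rpow_atTop 2 h0
        filter_upwards [b1.def (show (0:ℝ) < 1 / (4 * θ ^ 2) by positivity), eventually_ge_atTop (1:ℝ)]
          with Y hY hY1
        have hlog := Real.log_nonneg hY1
        rw [Real.norm_eq_abs, Real.norm_eq_abs, abs_of_nonneg (Real.rpow_nonneg hlog _),
          abs_of_nonneg (Real.rpow_nonneg (by linarith) _), Real.rpow_two] at hY
        rw [div_mul_eq_mul_div, one_mul, le_div_iff₀ (by positivity)] at hY
        rw [mul_pow, le_div_iff₀ (by norm_num)]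
        linarith
      have a3 : ∀ᶠ M : ℝ in atTop, 2 * M ^ (θ / 10) ≤ M ^ η / 4 := by
        have b1 := (tendsto_rpow_atTop (show (0 : ℝ) < η - θ / 10 by linarith)).eventually_ge_atTop 8
        filter_upwards [b1, eventually_gt_atTop (0 : ℝ)] with M hM hM0
        have : M ^ η = M ^ (θ / 10) * M ^ (η - θ / 10) := by
          rw [← Real.rpow_add hM0]; congr 1; ring
        rw [this]
        have := Real.rpow_pos_of_pos hM0 (θ / 10)
        nlinarith
      filter_upwards [a1, a2, a3, eventually_gt_atTop (0 : ℝ)] with M b1 b2 b3 b4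
      have := Real.rpow_pos_of_pos b4 η
      linarith
    have e3 := t0.eventually (ev_L θ c' hθ0 hc'0 f.natDegree r (max T₀ B) (max L₀ 1))
    filter_upwards [eventually_gt_atTop (1 : ℝ), (tendsto_rpow_atTop hθ0).eventually_ge_atTop X₀,
      e1.eventually_ge_atTop (2 * (-Real.log θ)), e1.eventually_ge_atTop 0, e3, e2] with M a1 a2 a3 a4 a5 a6
    exact ⟨⟨a1, a2, by linarith, a4⟩, a5, a6⟩
  filter_upwards [key] with M hMk
  obtain ⟨⟨hM1, hMX, hMθ, hMll⟩, ⟨g1, g2, g3, g4, g5, g6, g7⟩, g8⟩ := hMk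
  intro ι s v hs hv hE
  have hM0 : 0 < M := by linarith
  set X : ℝ := M ^ θ with hX
  have hX0 : 0 < X := Real.rpow_pos_of_pos hM0 _
  have hlogX : Real.log X = θ * Real.log M := by rw [hX, Real.log_rpow hM0]
  rw [← hlogX] at g1 g2 g3 g4 g5 g6 g7 g8
  set L : ℝ := Real.log X with hL
  set l : ℝ := Real.log L with hll
  have hLpos : 0 < L := by linarith
  have hXr : ∀ t : ℝ, X ^ t = Real.exp (t * L) := by
    intro t
    rw [show X = Real.exp L from (Real.exp_log hX0).symm, ← Real.exp_mul, mul_comm]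
  have hT₀ : T₀ ≤ L := (le_max_left _ _).trans g1
  have hBL : (B : ℝ) ≤ L := (le_max_right _ _).trans g1
  have hL₀ : L₀ ≤ L := (le_max_left _ _).trans g2
  have hl10 : 0 < l := by linarith
  -- the length
  set H : ℕ := ⌊c' * L * l⌋₊ with hH
  have hcLl : 0 ≤ c' * L * l := by positivity
  have hH1 : (H : ℝ) ≤ c' * L * l := Nat.floor_le hcLl
  have hcL1 : 1 ≤ c' * L * l := by
    have : c' * L * l = L * (c' * l) := by ring
    rw [this]
    nlinarith
  have hKH : ∀ k : ℤ, |(k : ℝ)| ≤ c' * θ / 2 * (Real.log M * Real.log (Real.log M)) → |k| ≤ H := by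
    intro k hk
    have e1 : c' * θ / 2 * (Real.log M * Real.log (Real.log M)) ≤ c' * L * l := by
      have e2 : 1 / 2 * Real.log (Real.log M) ≤ l := by
        rw [hll, hlogX, Real.log_mul hθ0.ne' (Real.log_pos hM1).ne']
        linarith
      calc c' * θ / 2 * (Real.log M * Real.log (Real.log M)) = c' * L * (1 / 2 * Real.log (Real.log M)) := by
            rw [hlogX]; ring
        _ ≤ c' * L * l := mul_le_mul_of_nonneg_left e2 (by positivity)
    have e3 : ((k.natAbs : ℕ) : ℝ) ≤ c' * L * l := by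
      have e4 : ((k.natAbs : ℕ) : ℝ) = |(k : ℝ)| := by
        rw [Nat.cast_natAbs, Int.cast_abs]
      rw [e4]
      linarith
    have e5 : k.natAbs ≤ H := Nat.le_floor e3
    rw [Int.abs_eq_natAbs]
    exact_mod_cast e5
  -- small primes
  set w : ℝ := 1 / 100 * L with hw
  have hw0 : 0 ≤ w := by positivity
  have hw' : w = L / 100 := by rw [hw]; ring
  obtain ⟨r₀, hr₀⟩ := class_choice f (PR w) (fun p hp => PR_prime hp) (Finset.range (2 * H + 1))
  set Rs : Finset ℕ := (Finset.range (2 * H + 1)).filter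
    (fun k : ℕ => ∀ p ∈ PR w, ¬ (p : ℤ) ∣ f.eval (r₀ + (k : ℤ))) with hRs
  set W : ℕ := ∏ p ∈ PR w, p with hW
  have hW1 : 1 ≤ W := WW_pos w
  have hWle : (W : ℝ) ≤ Real.exp (L / 50) := by
    have := WW_le hLpos.le
    rw [← hw'] at this
    exact this
  have hWR : (0:ℝ) < W := by exact_mod_cast hW1
  -- survivors
  have hRsH : (Rs.card : ℝ) ≤ 3 * (c' * L * l) := by
    have e1 : Rs.card ≤ 2 * H + 1 := by
      refine (card_filter_le _ _).trans ?_
      rw [card_range]
    have e2 : (Rs.card : ℝ) ≤ 2 * H + 1 := by exact_mod_cast e1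
    linarith
  have hRsL : (Rs.card : ℝ) ≤ L ^ 2 := hRsH.trans g6
  have hcard : (r : ℝ) * Rs.card ≤ c * L * l * Real.exp (-(Sg (rho f) (L ^ A))) := by
    have e1 : (Rs.card : ℝ) ≤ (3 * (c' * L * l)) * Real.exp (-(Sg (rho f) w)) := by
      refine hr₀.trans ?_
      rw [Finset.card_range]
      push_cast
      exact mul_le_mul (by linarith) (prod_le_exp f w) (prod_nonneg fun p hp => by
        have := PR_prime hp
        have hp0 : (0 : ℝ) < p := by exact_mod_cast this.pos
        rw [sub_nonneg, div_le_one hp0]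
        exact_mod_cast rho_le_self f p) (by positivity)
    have e2 : Real.exp (-(Sg (rho f) w)) ≤ Real.exp C₁ * Real.exp (-(Sg (rho f) (L ^ A))) := by
      rw [← Real.exp_add]
      apply Real.exp_le_exp.mpr
      have := hcl L hL₀
      linarith
    calc (r : ℝ) * Rs.card ≤ r * ((3 * (c' * L * l)) * (Real.exp C₁ * Real.exp (-(Sg (rho f) (L ^ A))))) :=
          mul_le_mul_of_nonneg_left (e1.trans (mul_le_mul_of_nonneg_left e2 (by positivity))) hr0.le
      _ = c * L * l * Real.exp (-(Sg (rho f) (L ^ A))) := by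
          rw [hc']
          have : Real.exp (-C₁) * Real.exp C₁ = 1 := by rw [← Real.exp_add]; simp
          calc (r : ℝ) * ((3 * (c * Real.exp (-C₁) / (3 * r) * L * l)) * (Real.exp C₁ *
                Real.exp (-(Sg (rho f) (L ^ A))))) = c * L * l * (Real.exp (-C₁) * Real.exp C₁) *
                Real.exp (-(Sg (rho f) (L ^ A))) := by field_simp
            _ = _ := by rw [this, mul_one]
  -- the subfamily
  set s₀ : Finset ι := s.filter (fun i => ∀ j, ∀ p ∈ PR w, (p : ℤ) ∣ v i j - (r₀ + H)) with hs₀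
  set N : ℝ := s.card / (W : ℝ) ^ r with hN
  have hs1 : (0 : ℝ) < s.card := by exact_mod_cast card_pos.2 hs
  have hN0 : 0 < N := by positivity
  set E0 : ℝ := s.card * M ^ (-η) with hE0
  have hE00 : 0 ≤ E0 := by positivity
  -- the error term
  have herr : ∀ T : Finset ℕ, (∏ p ∈ T, (p : ℝ)) ≤ X ^ (1 / 4 : ℝ) → (W : ℝ) * ∏ p ∈ T, (p : ℝ) ≤ M ^ η ∧
      ((W : ℝ) * ∏ p ∈ T, (p : ℝ)) ^ r * E0 ≤ N * X ^ (-(1 / 4) : ℝ) := by
    intro T hT
    have hMη : ∀ t : ℝ, M ^ t = Real.exp (t * Real.log M) := by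
      intro t
      rw [Real.rpow_def_of_pos hM0, mul_comm]
    have hlogM : Real.log M = L / θ := by
      rw [hlogX]; field_simp
    have hT0 : 0 ≤ ∏ p ∈ T, (p : ℝ) := prod_nonneg fun _ _ => by positivity
    have e1 : (W : ℝ) * ∏ p ∈ T, (p : ℝ) ≤ Real.exp (27 / 100 * L) := by
      calc (W : ℝ) * ∏ p ∈ T, (p : ℝ) ≤ Real.exp (L / 50) * X ^ (1 / 4 : ℝ) :=
            mul_le_mul hWle hT hT0 (Real.exp_pos _).le
        _ = Real.exp (27 / 100 * L) := by
            rw [hXr, ← Real.exp_add]; congr 1; ring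
    have hηL : η * Real.log M = 2 * r * L := by
      rw [hlogM, ← hθη]; field_simp
    constructor
    · refine e1.trans ?_
      rw [hMη, hηL]
      apply Real.exp_le_exp.2
      nlinarith
    · have e2 : ((W : ℝ) * ∏ p ∈ T, (p : ℝ)) ^ r ≤ Real.exp (27 / 100 * L * r) := by
        have := pow_le_pow_left₀ (mul_nonneg hWR.le hT0) e1 r
        rw [← Real.exp_nat_mul] at this
        refine this.trans (le_of_eq ?_)
        congr 1; ring
      have e3 : (W : ℝ) ^ r ≤ Real.exp (L / 50 * r) := by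
        have := pow_le_pow_left₀ hWR.le hWle r
        rw [← Real.exp_nat_mul] at this
        refine this.trans (le_of_eq ?_)
        congr 1; ring
      have e4 : M ^ (-η) = Real.exp (-(2 * r * L)) := by
        rw [hMη]; congr 1; linarith
      rw [hE0, hN, hXr, e4, div_mul_eq_mul_div, le_div_iff₀ (by positivity)]
      calc ((W : ℝ) * ∏ p ∈ T, (p : ℝ)) ^ r * (s.card * Real.exp (-(2 * r * L))) * (W : ℝ) ^ r
          ≤ Real.exp (27 / 100 * L * r) * (s.card * Real.exp (-(2 * r * L))) * Real.exp (L / 50 * r) := by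
            apply mul_le_mul _ e3 (pow_nonneg hWR.le r)
              (mul_nonneg (Real.exp_pos _).le (mul_nonneg hs1.le (Real.exp_pos _).le))
            exact mul_le_mul_of_nonneg_right e2 (mul_nonneg hs1.le (Real.exp_pos _).le)
        _ = s.card * Real.exp (27 / 100 * L * r + -(2 * r * L) + L / 50 * r) := by
            rw [Real.exp_add, Real.exp_add]; ring
        _ ≤ s.card * Real.exp (-(1 / 4) * L) := by
            apply mul_le_mul_of_nonneg_left _ hs1.le
            apply Real.exp_le_exp.2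
            nlinarith
  -- exponential sums
  have hES : ∀ S : Finset ℕ, (∀ p ∈ S, p.Prime) → ((∏ p ∈ S, p : ℕ) : ℝ) ≤ M ^ η →
      ∀ h : Fin r → ℕ, (∀ j, h j < ∏ p ∈ S, p) → h ≠ 0 →
      ‖∑ i ∈ s, e (∑ j, (h j : ℝ) * (v i j / ((∏ p ∈ S, p : ℕ) : ℝ)))‖ ≤ E0 := by
    intro S hS hSM h hh hne
    exact hE _ (Finset.prod_pos fun p hp => (hS p hp).pos) hSM h hh hne
  -- nonempty
  have hs₀ne : s₀.Nonempty := by
    obtain ⟨e1, e2⟩ := herr ∅ (by
      rw [prod_empty]
      exact Real.one_le_rpow (by rw [hX]; exact Real.one_le_rpow hM1.le hθ0.le) (by norm_num))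
    rw [prod_empty, mul_one] at e1 e2
    have h3 := vec_count s v (PR w) (fun p hp => PR_prime hp) E0 hE00
      (hES (PR w) (fun p hp => PR_prime hp) (by rw [← hW]; exact e1))
      (fun _ p x => (p : ℤ) ∣ x - (r₀ + H)) (fun j p hp x y h => by
        refine dvd_iff_dvd_of_dvd_sub ?_
        rwa [sub_sub_sub_cancel_right])
    have h4 : ∏ p ∈ PR w, ∏ _j : Fin r, (((range p).filter (fun a : ℕ => (p : ℤ) ∣ (a : ℤ) - (r₀ + H))).card : ℝ) / p =
        1 / (W : ℝ) ^ r := by
      by_cases hR : Nonempty (ℕ → Fin r × ↥Rs)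
      · obtain ⟨σ⟩ := hR
        have h5 := Cnd_prod f hr H Rs (PR w) ∅ (disjoint_empty_right _) (fun p hp => PR_prime hp)
          (by simp) r₀ σ
        rw [union_empty, prod_empty, mul_one, ← hW] at h5
        rw [← h5]
        refine prod_congr rfl fun p hp => prod_congr rfl fun j _ => ?_
        congr 3
        refine filter_congr fun a _ => ?_
        unfold Cnd
        rw [if_pos hp]
      · -- direct
        rw [hW]
        push_cast
        rw [one_div, ← prod_pow, ← prod_inv_distrib]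
        refine prod_congr rfl fun p hp => ?_
        have hpp := PR_prime hp
        have h6 : ((range p).filter (fun a : ℕ => (p : ℤ) ∣ (a : ℤ) - (r₀ + H))).card = 1 := by
          have h7 := Cnd_prod (r := 1) f le_rfl H {0} {p} ∅ (disjoint_empty_right _)
            (by intro q hq; rw [mem_singleton.1 hq]; exact hpp) (by simp) r₀
            (fun _ => ((0 : Fin 1), (⟨0, mem_singleton_self 0⟩ : ↥({0} : Finset ℕ))))
          simp only [union_empty, prod_singleton, prod_empty, mul_one, univ_unique, pow_one] at h7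
          have hp0 : (0 : ℝ) < p := by exact_mod_cast hpp.pos
          have h8 : (((range p).filter (fun a : ℕ => Cnd (r := 1) f H {0} {p} r₀
              (fun _ => ((0 : Fin 1), (⟨0, mem_singleton_self 0⟩ : ↥({0} : Finset ℕ)))) default p (a : ℤ))).card : ℝ) = 1 := by
            have h9 := congrArg (fun t : ℝ => t * p) h7
            simp only [div_mul_cancel₀ _ hp0.ne', one_div, inv_mul_cancel₀ hp0.ne'] at h9
            exact h9
          have h10 : ((range p).filter (fun a : ℕ => (p : ℤ) ∣ (a : ℤ) - (r₀ + H))) =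
              ((range p).filter (fun a : ℕ => Cnd (r := 1) f H {0} {p} r₀
              (fun _ => ((0 : Fin 1), (⟨0, mem_singleton_self 0⟩ : ↥({0} : Finset ℕ)))) default p (a : ℤ))) := by
            refine filter_congr fun a _ => ?_
            unfold Cnd
            rw [if_pos (mem_singleton_self p)]
          rw [h10]
          exact_mod_cast h8
        rw [prod_congr rfl (fun j _ => by rw [h6]), prod_const, card_univ, Fintype.card_fin]
        simp
    have h3' : |(s₀.card : ℝ) - s.card * (1 / (W : ℝ) ^ r)| ≤ (W : ℝ) ^ r * E0 := by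
      refine le_trans (le_of_eq ?_) h3
      rw [← h4, hs₀]
      congr!
    have h5 : (0 : ℝ) < s₀.card := by
      have e3 : ((W : ℕ) : ℝ) ^ r * E0 < N := by
        refine lt_of_le_of_lt e2 ?_
        have : X ^ (-(1 / 4) : ℝ) < 1 := by
          rw [hXr]
          have e5 := Real.exp_lt_exp.2 (show -(1 / 4) * L < 0 by linarith)
          rwa [Real.exp_zero] at e5
        nlinarith
      have h6 := (abs_le.1 h3').1
      have h7 : (s.card : ℝ) * (1 / (W : ℝ) ^ r) = N := by rw [hN]; ring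
      rw [h7] at h6
      linarith
    exact card_pos.1 (by exact_mod_cast h5)
  -- conclusion
  have hfin : ∀ i ∈ s₀, (∀ (j : Fin r) (k : ℕ), k ∈ Rs → ∃ p : ℕ, p.Prime ∧ (p : ℝ) ≤ X ^ (1 / 10 : ℝ) ∧
      (p : ℤ) ∣ f.eval (v i j - H + (k : ℤ))) →
      ∀ j, IsoP f (c' * θ / 2 * (Real.log M * Real.log (Real.log M))) (v i j) := by
    intro i hi hcv j k hk
    rw [hs₀, mem_filter] at hi
    have hkH := hKH k hk
    rw [abs_le] at hkH
    have e1 : (((k + H).toNat : ℕ) : ℤ) = k + H := Int.toNat_of_nonneg (by linarith)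
    have e2 : v i j - H + (((k + H).toNat : ℕ) : ℤ) = v i j + k := by rw [e1]; ring
    have hex : ∃ p : ℕ, p.Prime ∧ (p : ℝ) ≤ X ^ (1 / 10 : ℝ) ∧ (p : ℤ) ∣ f.eval (v i j + k) := by
      by_cases hkR : (k + H).toNat ∈ Rs
      · obtain ⟨p, hp1, hp2, hp3⟩ := hcv j _ hkR
        rw [e2] at hp3
        exact ⟨p, hp1, hp2, hp3⟩
      · rw [hRs, mem_filter, not_and] at hkR
        have e3 := hkR (mem_range.2 (by
          have : (((k + H).toNat : ℕ) : ℤ) < 2 * H + 1 := by rw [e1]; linarith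
          exact_mod_cast this))
        push Not at e3
        obtain ⟨p, hp, hpd⟩ := e3
        refine ⟨p, PR_prime hp, ?_, ?_⟩
        · have e4 := PR_le hw0 hp
          have e5 : w ≤ X ^ (1 / 10 : ℝ) := by
            rw [hXr, hw]
            have := Real.add_one_le_exp (1 / 10 * L)
            linarith
          linarith
        · have e4 := hi.2 j p hp
          have e5 : (p : ℤ) ∣ (v i j - H) - r₀ := by
            have : v i j - H - r₀ = v i j - (r₀ + H) := by ring
            rw [this]; exact e4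
          have e6 := (dvd_shift f p (v i j - H) r₀ (((k + H).toNat : ℕ) : ℤ) e5).2 hpd
          rw [e2] at e6
          exact e6
    obtain ⟨p, hp, hpX, hpd⟩ := hex
    refine ⟨p, hp, hpd, ?_⟩
    have hvi := hv i hi.1 j
    have hHL : (H : ℝ) ≤ L ^ 2 := by linarith
    have hkR : -(L ^ 2) ≤ (k : ℝ) := by
      have : (-(H : ℤ) : ℤ) ≤ k := hkH.1
      have h2 : (-(H : ℝ)) ≤ k := by exact_mod_cast this
      linarith
    have hXM : X ^ (1 / 10 : ℝ) = M ^ (θ / 10) := by
      rw [hX, ← Real.rpow_mul hM0.le]; congr 1; ring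
    rw [hXM] at hpX
    have hvk : |(x₀ : ℝ)| + 2 * M ^ (θ / 10) + 2 ≤ ((v i j + k : ℤ) : ℝ) := by
      push_cast
      linarith
    have hMt := Real.rpow_pos_of_pos hM0 (θ / 10)
    have e7 : x₀ ≤ v i j + k := by
      have : (x₀ : ℝ) ≤ ((v i j + k : ℤ) : ℝ) := by
        have := le_abs_self (x₀ : ℝ)
        linarith
      exact_mod_cast this
    have e8 := hx₀ _ e7
    have e9 : ((v i j + k : ℤ) : ℝ) ≤ 2 * ((f.eval (v i j + k) : ℤ) : ℝ) := by exact_mod_cast e8
    have e10 : (p : ℝ) < ((f.eval (v i j + k) : ℤ) : ℝ) := by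
      have := abs_nonneg (x₀ : ℝ)
      linarith
    exact_mod_cast e10
  rcases Rs.eq_empty_or_nonempty with hemp | hne
  · obtain ⟨i, hi⟩ := hs₀ne
    refine ⟨i, (mem_filter.1 hi).1, hfin i hi (fun j k hk => ?_)⟩
    rw [hemp] at hk
    exact absurd hk (notMem_empty k)
  · have hneR : Nonempty (↥Rs) := hne.to_subtype
    have hneF : Nonempty (Fin r) := ⟨⟨0, by omega⟩⟩
    have hLA : L ^ 5 ≤ L ^ A := pow_le_pow_right₀ (by linarith) hA5
    have hwLA : w < L ^ A := by
      have e1 : L ≤ L ^ A := le_self_pow₀ (by linarith) (by omega)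
      rw [hw]
      linarith
    have hRs2 : ∀ k ∈ Rs, (k : ℝ) ≤ L ^ 2 := by
      intro k hk
      rw [hRs, mem_filter, mem_range] at hk
      have e1 : (k : ℝ) ≤ 2 * H := by exact_mod_cast Nat.lt_succ_iff.1 hk.1
      linarith
    -- no collisions
    have hcol : ∀ p : ℕ, p.Prime → L ^ A < p → ∀ x : ℤ, ∀ k k' : ↥Rs, (p : ℤ) ∣ f.eval (x + ((k : ℕ) : ℤ)) →
        (p : ℤ) ∣ f.eval (x + ((k' : ℕ) : ℤ)) → k = k' := by
      have hlt : ∀ p : ℕ, p.Prime → L ^ A < p → ∀ x : ℤ, ∀ k k' : ↥Rs, (k : ℕ) < (k' : ℕ) →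
          (p : ℤ) ∣ f.eval (x + ((k : ℕ) : ℤ)) → (p : ℤ) ∣ f.eval (x + ((k' : ℕ) : ℤ)) → False := by
        intro p hp hpA x k k' hkk h1 h2
        have h3 := hNC L hT₀ p hp (lt_of_le_of_lt (pow_le_pow_right₀ (by linarith) hAA) hpA)
          ((k' : ℕ) - (k : ℕ)) (by omega) (by
            have e1 : (((k' : ℕ) - (k : ℕ) : ℕ) : ℝ) ≤ ((k' : ℕ) : ℝ) := by
              exact_mod_cast Nat.sub_le _ _
            exact e1.trans (hRs2 k' k'.2)) (x + ((k : ℕ) : ℤ)) h1
        apply h3
        have e2 : x + ((k : ℕ) : ℤ) + (((k' : ℕ) - (k : ℕ) : ℕ) : ℤ) = x + ((k' : ℕ) : ℤ) := by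
          push_cast [Nat.cast_sub hkk.le]
          ring
        rw [e2]
        exact h2
      intro p hp hpA x k k' h1 h2
      rcases lt_trichotomy (k : ℕ) (k' : ℕ) with h | h | h
      · exact (hlt p hp hpA x k k' h h1 h2).elim
      · exact Subtype.ext h
      · exact (hlt p hp hpA x k' k h h2 h1).elim
    set hit : ℕ → ι → Fin r × ↥Rs → Prop := fun p i k => (p : ℤ) ∣ f.eval (v i k.1 - H + ((k.2 : ℕ) : ℤ)) ∧
      ∀ j, j ≠ k.1 → ∀ l ∈ Rs, ¬ (p : ℤ) ∣ f.eval (v i j - H + (l : ℤ)) with hhit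
    obtain ⟨i, hi, hic⟩ := hcov X hMX (gg f r H Rs) (by
        intro p hp hpA hpX
        refine ⟨gg_le f r H Rs p hp, le_gg f r H Rs p hp (1 / L ^ 2) ?_⟩
        have hpB : B < p := by
          have e1 : L ≤ L ^ A := le_self_pow₀ (by linarith) (by omega)
          have : (B : ℝ) < p := by linarith
          exact_mod_cast this
        have e1 : (rho f p : ℝ) ≤ f.natDegree := by exact_mod_cast hB p hp hpB
        have e2 : (r : ℝ) * (Rs.card * rho f p) ≤ L * L ^ 2 := by
          calc (r : ℝ) * (Rs.card * rho f p) ≤ r * (L ^ 2 * f.natDegree) := by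
                apply mul_le_mul_of_nonneg_left _ hr0.le
                exact mul_le_mul hRsL e1 (by positivity) (by positivity)
            _ = (r * f.natDegree) * L ^ 2 := by ring
            _ ≤ L * L ^ 2 := mul_le_mul_of_nonneg_right g4 (by positivity)
        refine e2.trans ?_
        have e3 : L * L ^ 2 = 1 / L ^ 2 * L ^ 5 := by field_simp
        rw [e3]
        exact mul_le_mul_of_nonneg_left (hLA.trans hpA.le) (by positivity))
      (Fin r × ↥Rs) (by
        rw [Fintype.card_prod, Fintype.card_fin, Fintype.card_coe]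
        push_cast
        exact hcard) ι hit (by
        intro p hp hpA _ i k k' h1 h2
        have hj : k.1 = k'.1 := by
          by_contra hne
          exact h1.2 k'.1 (fun h => hne h.symm) (k'.2 : ℕ) k'.2.2 h2.1
        have h3 : (p : ℤ) ∣ f.eval (v i k.1 - H + ((k'.2 : ℕ) : ℤ)) := by rw [hj]; exact h2.1
        exact Prod.ext hj (hcol p hp hpA _ _ _ h1.1 h3))
      s₀ N hs₀ne hN0 (by
        intro T σ hT hT2
        obtain ⟨e1, e2⟩ := herr T hT
        have hdisj : Disjoint (PR w) T := by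
          rw [disjoint_left]
          intro p hp hpT
          have a1 := PR_le hw0 hp
          have a2 := (hT2 p hpT).2.1
          linarith
        have hprod : ((∏ p ∈ PR w ∪ T, p : ℕ) : ℝ) = (W : ℝ) * ∏ p ∈ T, (p : ℝ) := by
          rw [prod_union hdisj]
          push_cast
          rw [hW]
          push_cast
          rfl
        have hprimes : ∀ p ∈ PR w ∪ T, p.Prime := by
          intro p hp
          rcases mem_union.1 hp with h | h
          · exact PR_prime h
          · exact (hT2 p h).1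
        have h3 := vec_count s v (PR w ∪ T) hprimes E0 hE00
          (hES (PR w ∪ T) hprimes (by rw [hprod]; exact e1))
          (Cnd f H Rs (PR w) r₀ σ) (fun j p _ x y h => Cnd_per f H Rs (PR w) r₀ σ j p x y h)
        rw [Cnd_prod f hr H Rs (PR w) T hdisj (fun p hp => PR_prime hp) (fun p hp => (hT2 p hp).1) r₀ σ,
          hprod, ← hW] at h3
        have h4 : s₀.filter (fun i => ∀ p ∈ T, hit p i (σ p)) =
            s.filter (fun i => ∀ j, ∀ p ∈ PR w ∪ T, Cnd f H Rs (PR w) r₀ σ j p (v i j)) := by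
          rw [hs₀, filter_filter]
          refine filter_congr fun i _ => ?_
          constructor
          · rintro ⟨a1, a2⟩ j p hp
            unfold Cnd
            by_cases hpw : p ∈ PR w
            · rw [if_pos hpw]
              exact a1 j p hpw
            · rw [if_neg hpw]
              have hpT : p ∈ T := (mem_union.1 hp).resolve_left hpw
              obtain ⟨b1, b2⟩ := a2 p hpT
              split_ifs with hj
              · rw [← hj]
                exact b1
              · exact b2 j (fun h => hj h.symm)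
          · intro a
            refine ⟨fun j p hp => ?_, fun p hp => ?_⟩
            · have := a j p (mem_union_left _ hp)
              unfold Cnd at this
              rw [if_pos hp] at this
              exact this
            · have hpw : p ∉ PR w := fun h => (disjoint_left.1 hdisj) h hp
              refine ⟨?_, fun j hj l hl => ?_⟩
              · have := a (σ p).1 p (mem_union_right _ hp)
                unfold Cnd at this
                rw [if_neg hpw, if_pos rfl] at this
                exact this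
              · have := a j p (mem_union_right _ hp)
                unfold Cnd at this
                rw [if_neg hpw, if_neg (fun h => hj h.symm)] at this
                exact this l hl
        have h5 : (s.card : ℝ) * (1 / (W : ℝ) ^ r * ∏ p ∈ T, gg f r H Rs p) = N * ∏ p ∈ T, gg f r H Rs p := by
          rw [hN]; ring
        rw [h5] at h3
        refine le_trans (le_of_eq ?_) (h3.trans e2)
        rw [← h4]
        congr!)
    refine ⟨i, (mem_filter.1 hi).1, hfin i hi (fun j k hk => ?_)⟩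
    obtain ⟨p, hp1, -, hp3, hp4⟩ := hic (j, ⟨k, hk⟩)
    exact ⟨p, hp1, hp3, hp4.1⟩

open Classical in
/-- A finite family of vectors of integers whose exponential sums at the small rational vectors save a power of `M` has
many members all of whose coordinates are at distance `κ log M log log M` from the arguments of the prime values of `f`. -/
theorem crit_many (f : ℤ[X]) (hf : Irreducible f) (hd : 0 < f.natDegree) (hl : 0 < f.leadingCoeff)
    (r : ℕ) (hr : 1 ≤ r) (η : ℝ) (h0 : 0 < η) (h1 : η ≤ 1) :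
    ∃ κ : ℝ, 0 < κ ∧ ∀ᶠ M : ℝ in atTop,
    ∀ (ι : Type) (s : Finset ι) (v : ι → Fin r → ℤ), (∀ i ∈ s, ∀ j, M ^ η ≤ v i j) →
    (∀ q : ℕ, 1 ≤ q → (q : ℝ) ≤ M ^ η → ∀ h : Fin r → ℕ, (∀ j, h j < q) → h ≠ 0 →
      ‖∑ i ∈ s, e (∑ j, (h j : ℝ) * (v i j / q))‖ ≤ s.card * M ^ (-η)) →
    s.card * M ^ (-η) ≤
      ((s.filter (fun i => ∀ j, IsoP f (κ * (Real.log M * Real.log (Real.log M))) (v i j))).card : ℝ) := by
  obtain ⟨κ, hκ, hc⟩ := exists_iso f hf hd hl r hr (η / 2) (by linarith) (by linarith)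
  refine ⟨κ, hκ, ?_⟩
  filter_upwards [hc, eventually_ge_atTop (1 : ℝ),
    (tendsto_rpow_atTop (show (0 : ℝ) < η / 2 by linarith)).eventually_ge_atTop 8] with M hM hM1 h8
  intro ι s v hv hE
  have hM0 : 0 < M := by linarith
  set G : Finset ι := s.filter (fun i => ∀ j, IsoP f (κ * (Real.log M * Real.log (Real.log M))) (v i j)) with hG
  by_contra hcon
  push Not at hcon
  have hGs : G ⊆ s := filter_subset _ _
  have hs0 : (0 : ℝ) < s.card := by
    have h2 : (0 : ℝ) ≤ G.card := Nat.cast_nonneg _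
    by_contra h3
    push Not at h3
    have h4 : (s.card : ℝ) = 0 := le_antisymm h3 (Nat.cast_nonneg _)
    rw [h4, zero_mul] at hcon
    linarith
  set n : ℝ := (s.card : ℝ) with hn
  set t : Finset ι := s \ G with ht
  have htc : (t.card : ℝ) = n - G.card := by
    have h2 := card_sdiff_add_card_eq_card hGs
    have h3 : (((s \ G).card + G.card : ℕ) : ℝ) = s.card := by exact_mod_cast h2
    push_cast at h3
    rw [ht]
    linarith
  have hMp := Real.rpow_pos_of_pos hM0 (-η)
  have hη4 : M ^ (-η) * 8 ≤ M ^ (-(η / 2)) := by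
    have e1 : M ^ (-(η / 2)) = M ^ (-η) * M ^ (η / 2) := by
      rw [← Real.rpow_add hM0]
      congr 1
      ring
    rw [e1]
    exact mul_le_mul_of_nonneg_left h8 hMp.le
  have hη1 : M ^ (-(η / 2)) ≤ 1 := Real.rpow_le_one_of_one_le_of_nonpos hM1 (by linarith)
  have hthalf : n / 2 ≤ t.card := by
    rw [htc]
    nlinarith
  have htne : t.Nonempty := by
    rw [← card_pos]
    have : (0 : ℝ) < t.card := by linarith
    exact_mod_cast this
  have hMη : M ^ (η / 2) ≤ M ^ η := Real.rpow_le_rpow_of_exponent_le hM1 (by linarith)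
  obtain ⟨i, hi, hi2⟩ := hM ι t v htne (fun i hi j => hMη.trans (hv i (Finset.mem_sdiff.1 hi).1 j)) (by
    intro q hq hqM h hh hne
    have e1 := hE q hq (hqM.trans hMη) h hh hne
    have e2 : ∑ i ∈ t, e (∑ j, (h j : ℝ) * (v i j / q)) = ∑ i ∈ s, e (∑ j, (h j : ℝ) * (v i j / q)) -
        ∑ i ∈ G, e (∑ j, (h j : ℝ) * (v i j / q)) := by
      rw [ht, ← sum_sdiff hGs]
      ring
    rw [e2]
    have e3 : ‖∑ i ∈ G, e (∑ j, (h j : ℝ) * (v i j / q))‖ ≤ G.card := by
      refine (norm_sum_le _ _).trans ?_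
      rw [sum_congr rfl (fun i _ => norm_e _), sum_const, nsmul_eq_mul, mul_one]
    have e4 := norm_sub_le (∑ i ∈ s, e (∑ j, (h j : ℝ) * (v i j / q))) (∑ i ∈ G, e (∑ j, (h j : ℝ) * (v i j / q)))
    have e5 : (t.card : ℝ) * M ^ (-(η / 2)) ≥ n / 2 * (M ^ (-η) * 8) :=
      mul_le_mul hthalf hη4 (by positivity) (Nat.cast_nonneg _)
    nlinarith)
  have his : i ∈ s := (Finset.mem_sdiff.1 hi).1
  have hiG : i ∉ G := (Finset.mem_sdiff.1 hi).2
  apply hiG
  rw [hG, mem_filter]
  exact ⟨his, hi2⟩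

end Pool.Agent.Q46.PV
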