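import Pool.Agent.Q46.MH.Crit
import Pool.Agent.Q46.PV.Fam
import Pool.Agent.H474R2.GE.FA

set_option autoImplicit false

/-! # Counting the members of a family of integer vectors with conditions modulo several primes -/

namespace Pool.Agent.Q46.PV

open Finset
open Pool.Agent.H469R2.NK (e norm_e e_add)
open Pool.Agent.Q46.MH (classJ_le)

open Classical in
theorem vec_count {ι : Type} {r : ℕ} (s : Finset ι) (v : ι → Fin r → ℤ) (S : Finset ℕ)
    (hS : ∀ p ∈ S, p.Prime) (E0 : ℝ) (hE0 : 0 ≤ E0)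
    (hE : ∀ h : Fin r → ℕ, (∀ j, h j < ∏ p ∈ S, p) → h ≠ 0 →
      ‖∑ i ∈ s, e (∑ j, (h j : ℝ) * (v i j / ((∏ p ∈ S, p : ℕ) : ℝ)))‖ ≤ E0)
    (Cnd : Fin r → ℕ → ℤ → Prop)
    (hper : ∀ j, ∀ p ∈ S, ∀ x y : ℤ, (p : ℤ) ∣ x - y → (Cnd j p x ↔ Cnd j p y)) :
    |((s.filter (fun i => ∀ j, ∀ p ∈ S, Cnd j p (v i j))).card : ℝ) -
      s.card * ∏ p ∈ S, ∏ j : Fin r, (((range p).filter (fun a : ℕ => Cnd j p (a : ℤ))).card : ℝ) / p| ≤
      ((∏ p ∈ S, p : ℕ) : ℝ) ^ r * E0 := by
  set q : ℕ := ∏ p ∈ S, p with hq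
  have hq1 : 1 ≤ q := Finset.prod_pos fun p hp => (hS p hp).pos
  have hq0 : (0 : ℝ) < q := by exact_mod_cast hq1
  have hqr : (0 : ℝ) < (q : ℝ) ^ r := by positivity
  have hdvd : ∀ p ∈ S, p ∣ q := fun p hp => Finset.dvd_prod_of_mem _ hp
  set P : Finset (Fin r → ℕ) := Fintype.piFinset (fun _ => range q) with hP
  set G : Finset (Fin r → ℕ) := P.filter (fun ρ => ∀ j, ∀ p ∈ S, Cnd j p (ρ j : ℤ)) with hG
  -- partition
  set rd : ι → Fin r → ℕ := fun i j => ((v i j) % (q : ℤ)).toNat with hrd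
  have hqz : (0 : ℤ) < q := by exact_mod_cast hq1
  have hrd1 : ∀ i j, ((rd i j : ℕ) : ℤ) = (v i j) % (q : ℤ) := fun i j => by
    rw [hrd]
    exact Int.toNat_of_nonneg (Int.emod_nonneg _ hqz.ne')
  have hrd2 : ∀ i, rd i ∈ P := fun i => by
    rw [hP, Fintype.mem_piFinset]
    intro j
    rw [mem_range]
    have := hrd1 i j
    have h2 := Int.emod_lt_of_pos (v i j) hqz
    have : ((rd i j : ℕ) : ℤ) < (q : ℤ) := by rw [this]; exact h2
    exact_mod_cast this
  have hrd3 : ∀ i, ∀ ρ ∈ P, (∀ j, (q : ℤ) ∣ v i j - ((ρ j : ℕ) : ℤ)) ↔ rd i = ρ := by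
    intro i ρ hρ
    rw [hP, Fintype.mem_piFinset] at hρ
    constructor
    · intro h
      funext j
      have h1 : (v i j) % (q : ℤ) = ((ρ j : ℕ) : ℤ) % (q : ℤ) :=
        Int.emod_emod_of_dvd _ (dvd_refl _) ▸ (Int.emod_emod_of_dvd (v i j) (dvd_refl (q : ℤ))).symm ▸
          (Int.ModEq.symm ((Int.modEq_iff_dvd).2 (h j)))
      have h2 : ((ρ j : ℕ) : ℤ) % (q : ℤ) = ((ρ j : ℕ) : ℤ) :=
        Int.emod_eq_of_lt (by positivity) (by exact_mod_cast mem_range.1 (hρ j))
      have h3 := hrd1 i j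
      rw [h1, h2] at h3
      exact_mod_cast h3
    · rintro rfl j
      rw [hrd1]
      exact Int.dvd_self_sub_emod
  have hCr : ∀ i, (∀ j, ∀ p ∈ S, Cnd j p (v i j)) ↔ rd i ∈ G := by
    intro i
    rw [hG, mem_filter, and_iff_right (hrd2 i)]
    refine forall_congr' fun j => forall₂_congr fun p hp => ?_
    refine hper j p hp _ _ ?_
    rw [hrd1]
    exact (Int.natCast_dvd_natCast.2 (hdvd p hp)).trans (Int.dvd_self_sub_emod)
  have h1 : (s.filter (fun i => ∀ j, ∀ p ∈ S, Cnd j p (v i j))).card =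
      ∑ ρ ∈ G, (s.filter (fun i => ∀ j, (q : ℤ) ∣ v i j - ((ρ j : ℕ) : ℤ))).card := by
    rw [filter_congr (fun i _ => hCr i)]
    rw [card_eq_sum_card_fiberwise (s := s.filter (fun i => rd i ∈ G)) (f := rd) (t := G)
      (fun i hi => (mem_filter.1 (mem_coe.1 hi)).2)]
    refine sum_congr rfl fun ρ hρ => ?_
    congr 1
    rw [filter_filter]
    refine filter_congr fun i _ => ?_
    rw [hrd3 i ρ (mem_filter.1 hρ).1]
    constructor
    · rintro ⟨-, h2⟩
      exact h2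
    · intro h2
      exact ⟨by rw [h2]; exact hρ, h2⟩
  -- the number of good vectors
  have h2 : (G.card : ℝ) = ∏ p ∈ S, ∏ j : Fin r, (((range p).filter (fun a : ℕ => Cnd j p (a : ℤ))).card : ℝ) := by
    have e1 : G = Fintype.piFinset (fun j => (range q).filter (fun b : ℕ => ∀ p ∈ S, Cnd j p (b : ℤ))) := by
      ext ρ
      rw [hG, mem_filter, hP, Fintype.mem_piFinset, Fintype.mem_piFinset]
      simp only [mem_filter]
      exact ⟨fun h j => ⟨h.1 j, h.2 j⟩, fun h => ⟨fun j => (h j).1, fun j => (h j).2⟩⟩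
    have e2 : ∀ j, ((range q).filter (fun b : ℕ => ∀ p ∈ S, Cnd j p (b : ℤ))).card =
        ∏ p ∈ S, ((range p).filter (fun a : ℕ => Cnd j p (a : ℤ))).card := by
      intro j
      have e3 := Pool.Agent.H474R2.GE.card_crt S hS (fun p a => Cnd j p (a : ℤ))
      refine Eq.trans ?_ (e3.trans ?_)
      · congr 1
        refine filter_congr fun b _ => forall₂_congr fun p hp => ?_
        refine hper j p hp _ _ ?_
        push_cast
        exact Int.dvd_self_sub_emod
      · refine prod_congr rfl fun p _ => ?_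
        congr!
    rw [e1, Fintype.card_piFinset]
    push_cast
    rw [prod_comm]
    refine prod_congr rfl fun j _ => ?_
    rw [e2 j]
    push_cast
    rfl
  have h3 : (s.card : ℝ) * ∏ p ∈ S, ∏ j : Fin r, (((range p).filter (fun a : ℕ => Cnd j p (a : ℤ))).card : ℝ) / p =
      ∑ ρ ∈ G, (s.card : ℝ) / (q : ℝ) ^ r := by
    rw [sum_const, nsmul_eq_mul, h2]
    have e1 : ∏ p ∈ S, ∏ j : Fin r, (((range p).filter (fun a : ℕ => Cnd j p (a : ℤ))).card : ℝ) / p =
        (∏ p ∈ S, ∏ j : Fin r, (((range p).filter (fun a : ℕ => Cnd j p (a : ℤ))).card : ℝ)) / (q : ℝ) ^ r := by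
      have e2 : ((q : ℕ) : ℝ) ^ r = ∏ p ∈ S, ∏ _j : Fin r, (p : ℝ) := by
        rw [hq]
        push_cast
        rw [← prod_pow]
        refine prod_congr rfl fun p _ => ?_
        rw [prod_const, card_univ, Fintype.card_fin]
      rw [e2, ← prod_div_distrib]
      refine prod_congr rfl fun p _ => ?_
      rw [← prod_div_distrib]
    rw [e1]
    ring
  rw [h1, h3]
  push_cast
  rw [← sum_sub_distrib]
  refine (abs_sum_le_sum_abs _ _).trans ?_
  calc _ ≤ ∑ _ρ ∈ G, E0 := by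
        refine sum_le_sum fun ρ _ => ?_
        have e1 := classJ_le s v q hq1 E0 hE0 hE (fun j => ((ρ j : ℕ) : ℤ))
        refine le_trans (le_of_eq ?_) e1
        congr!
    _ ≤ (q : ℝ) ^ r * E0 := by
        rw [sum_const, nsmul_eq_mul]
        refine mul_le_mul_of_nonneg_right ?_ hE0
        have e1 : G.card ≤ P.card := card_filter_le _ _
        have e2 : P.card = q ^ r := by
          rw [hP, Fintype.card_piFinset]
          simp
        rw [e2] at e1
        exact_mod_cast e1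

end Pool.Agent.Q46.PV
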